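import Mathlib
import Pool.Agent.H.MP_919a9a_lc.A

set_option autoImplicit false

namespace Pool.Agent.H.MP_10f401_gt

open Set Filter Topology Cardinal TopologicalSpace Pool.Agent.H.MP_5382b1_gt

def Cov : Prop := ∀ (J : Type) (N : J → Set V), #J < 𝔠 → (∀ j, IsMeagre (N j)) → ∃ y, ∀ j, y ∉ N j

def R {T : Type} [TopologicalSpace T] (Z : Set T) : Prop :=
  ∀ U : ℕ → Set (Set T), (∀ n, (U n).Nonempty ∧ (∀ u ∈ U n, IsOpen u) ∧ Z ⊆ ⋃₀ U n) →
    ∃ u : ℕ → Set T, (∀ n, u n ∈ U n) ∧ Z ⊆ ⋃ n, u n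

section
variable {T T' : Type} [TopologicalSpace T] [TopologicalSpace T']

theorem R_small [SecondCountableTopology T] (hc : Cov) {A : Set T} (hA : #A < 𝔠) : R A := by
  classical
  intro U hU
  have h1 : ∀ n, ∃ u : ℕ → Set T, (∀ m, u m ∈ U n) ∧ A ⊆ ⋃ m, u m := fun n => by
    obtain ⟨S, k1, k2, k3⟩ := isOpen_sUnion_countable (U n) (hU n).2.1
    obtain ⟨w, hw⟩ := (hU n).1
    obtain ⟨u, hu⟩ := (k1.insert w).exists_eq_range (insert_nonempty _ _)
    refine ⟨u, fun m => insert_subset hw k2 (hu ▸ mem_range_self m), ?_⟩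
    rw [← sUnion_range, ← hu]
    exact (hU n).2.2.trans (k3 ▸ sUnion_mono (subset_insert _ _))
  choose u h2 h3 using h1
  let O : A → Set V := fun a => ⋃ n, ⋃ m, ⋃ _ : a.1 ∈ u n m,
    {z | z (n.pair m) = 1 ∧ ∀ m' < m, z (n.pair m') ≠ 1}
  obtain ⟨z, hz⟩ := hc A (fun a => (O a)ᶜ) hA fun a => by
    rw [IsMeagre, compl_compl]
    refine residual_of_dense_open (isOpen_iUnion fun n => isOpen_iUnion fun m => isOpen_iUnion fun _ =>
      ?_) (dense_iff_inter_open.2 fun W hW ⟨y, hy⟩ => ?_)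
    · refine IsOpen.inter ((isOpen_discrete {1}).preimage (continuous_apply _)) ?_
      change IsOpen {z : V | ∀ m' < m, z (n.pair m') ≠ 1}
      simp only [ofPred_forall]
      exact (finite_Iio m).isOpen_biInter fun m' _ =>
        (isOpen_discrete {1}ᶜ).preimage (continuous_apply (n.pair m'))
    · choose m hm using fun n => mem_iUnion.1 (h3 n a.2)
      have h4 : Tendsto (fun n => fun i : ℕ => if i.unpair.1 = n then
          (if i.unpair.2 = m n then 1 else 0) else y i) atTop (𝓝 y) := by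
        refine tendsto_pi_nhds.2 fun i => tendsto_const_nhds.congr' ?_
        filter_upwards [eventually_gt_atTop i.unpair.1] with n hn
        rw [if_neg hn.ne]
      obtain ⟨n, hn⟩ := (h4.eventually (hW.mem_nhds hy)).exists
      refine ⟨_, hn, mem_iUnion.2 ⟨n, mem_iUnion₂.2 ⟨m n, hm n, by simp, fun m' hm' => ?_⟩⟩⟩
      simp [hm'.ne]
  refine ⟨fun n => u n (sInf {m | z (n.pair m) = 1}), fun n => h2 _ _, fun a ha => ?_⟩
  have h4 := not_not.1 (hz ⟨a, ha⟩)
  simp only [O, mem_iUnion] at h4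
  obtain ⟨n, m, h5, h6, h7⟩ := h4
  refine mem_iUnion.2 ⟨n, ?_⟩
  rwa [(Nat.sInf_le (s := {m | z (n.pair m) = 1}) h6).antisymm
    (not_lt.1 fun h => h7 _ h (Nat.sInf_mem (s := {m | z (n.pair m) = 1}) ⟨m, h6⟩))]

theorem R_image {Z : Set T} (h : R Z) {f : T → T'} (hf : Continuous f) : R (f '' Z) := by
  intro U hU
  obtain ⟨u, h1, h2⟩ := h (fun n => (f ⁻¹' ·) '' U n) fun n => ⟨(hU n).1.image _, by
    rintro _ ⟨u, hu, rfl⟩
    exact ((hU n).2.1 u hu).preimage hf, fun x hx => by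
    obtain ⟨u, hu, h⟩ := (hU n).2.2 ⟨x, hx, rfl⟩
    exact ⟨_, ⟨u, hu, rfl⟩, h⟩⟩
  choose v h3 h4 using h1
  refine ⟨v, h3, ?_⟩
  rintro _ ⟨x, hx, rfl⟩
  obtain ⟨n, hn⟩ := mem_iUnion.1 (h2 hx)
  exact mem_iUnion.2 ⟨n, by rwa [← h4 n] at hn⟩

theorem R_iUnion {ι : Type} [Countable ι] {Z : ι → Set T} (h : ∀ i, R (Z i)) : R (⋃ i, Z i) := by
  intro U hU
  cases isEmpty_or_nonempty ι
  · exact ⟨fun n => (hU n).1.some, fun n => (hU n).1.some_mem, by simp⟩
  obtain ⟨e, he⟩ := exists_surjective_nat ι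
  choose u h1 h2 using fun j => h (e j) (fun n => U (j.pair n)) fun n =>
    ⟨(hU _).1, (hU _).2.1, (subset_iUnion _ _).trans (hU _).2.2⟩
  refine ⟨fun n => u n.unpair.1 n.unpair.2, fun n => by simpa using h1 n.unpair.1 n.unpair.2,
    iUnion_subset fun i x hx => ?_⟩
  obtain ⟨j, rfl⟩ := he i
  obtain ⟨n, hn⟩ := mem_iUnion.1 (h2 j hx)
  exact mem_iUnion.2 ⟨j.pair n, by simpa using hn⟩

theorem R_union {A B : Set T} (h : R A) (h' : R B) : R (A ∪ B) := by
  rw [union_eq_iUnion]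
  exact R_iUnion fun b => by cases b <;> assumption

theorem R_conc {Z D : Set T} (hD : R D) (hDZ : D ⊆ Z)
    (h : ∀ G, IsOpen G → D ⊆ G → ∃ Z', R Z' ∧ Z' ⊆ Z ∧ Z \ G ⊆ Z') : R Z := by
  intro U hU
  obtain ⟨u, h1, h2⟩ := hD (fun n => U (2 * n)) fun n => ⟨(hU _).1, (hU _).2.1, hDZ.trans (hU _).2.2⟩
  obtain ⟨Z', k1, k2, k3⟩ := h _ (isOpen_iUnion fun n => (hU _).2.1 _ (h1 n)) h2
  obtain ⟨v, h3, h4⟩ := k1 (fun n => U (2 * n + 1)) fun n =>
    ⟨(hU _).1, (hU _).2.1, k2.trans (hU _).2.2⟩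
  refine ⟨fun n => if n % 2 = 0 then u (n / 2) else v (n / 2), fun n => ?_, fun x hx => ?_⟩
  · beta_reduce
    split_ifs with h
    · simpa only [show 2 * (n / 2) = n by omega] using h1 (n / 2)
    · simpa only [show 2 * (n / 2) + 1 = n by omega] using h3 (n / 2)
  · by_cases h5 : x ∈ ⋃ n, u n
    · obtain ⟨n, hn⟩ := mem_iUnion.1 h5
      exact mem_iUnion.2 ⟨2 * n, by simpa using hn⟩
    · obtain ⟨n, hn⟩ := mem_iUnion.1 (h4 (k3 ⟨hx, h5⟩))
      exact mem_iUnion.2 ⟨2 * n + 1, by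
        rwa [if_neg (by omega), show (2 * n + 1) / 2 = n by omega]⟩

end

theorem luzin2 (hr : Cardinal.IsRegular continuum.{0}) (T : Type) (hT : #T ≤ 𝔠) [Nonempty T] (P : T → Set V)
    (hP : ∀ τ (J : Type) (N : J → Set V), #J < 𝔠 → (∀ j, IsClosed (N j) ∧ interior (N j) = ∅) →
      ∃ y ∈ P τ, ∀ j, y ∉ N j) :
    ∃ (I : Type) (_ : LinearOrder I) (x : I → V), (∀ t : I, #(Iic t) < 𝔠) ∧
    (∀ t, ∃ τ, x t ∈ P τ) ∧ (∀ τ, ∃ t, x t ∈ P τ) ∧
    ∀ (k : ℕ) (K : Set (Fin k → V)), IsClosed K → ∃ u : I, ∀ α : Fin k → I,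
      Function.Injective α → (∀ j, u < α j) → x ∘ α ∈ K → x ∘ α ∈ interior K := by
  classical
  let I := (𝔠 : Cardinal.{0}).ord.ToType
  have hI : #I = 𝔠 := mk_ord_toType _
  obtain ⟨j⟩ := (Cardinal.le_def (T × Set ℕ) I).1 (by
    rw [hI, mk_prod, lift_id, lift_id]
    exact (mul_le_mul' hT le_rfl).trans (by simp))
  let e := Function.invFun j
  have he : Function.Surjective e := Function.invFun_surjective j.injective
  have hlt : ∀ t : I, #(Iio t) < 𝔠 := fun t => by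
    have := mk_Iio_lt t (by rw [hI]; simp [I])
    rwa [hI] at this
  obtain ⟨b, hb⟩ := exists_seq_basis V
  choose B hB using fun k => exists_seq_basis (Fin k → V)
  let K : (k : ℕ) → I → Set (Fin k → V) := fun k u => (⋃ n ∈ (e u).2, B k n)ᶜ
  have hK : ∀ k u, IsClosed (K k u) := fun k u =>
    (isOpen_biUnion fun n _ => (hB k).isOpen ⟨n, rfl⟩).isClosed_compl
  let C : (k : ℕ) → I → (Fin k → ℕ) → Fin k → Finset (Fin k) → (Fin k → V) → Set V :=
    fun k u n i S y => {v | ∀ z, (∀ j, z j ∈ b (n j)) → Function.update (S.piecewise y z) i v ∈ K k u}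
  have hC : ∀ k u n i S y, IsClosed (C k u n i S y) := fun k u n i S y => by
    simp only [C, ofPred_forall]
    exact isClosed_iInter fun z => isClosed_iInter fun _ =>
      (hK k u).preimage (continuous_const.update i continuous_id)
  obtain ⟨x, hx⟩ := Pool.Agent.H.MP_c74059_gt.wf_choice (I := I) (A := V)
    (fun t x a => a ∈ P (e t).1 ∧ ∀ k (u : Iio t) n i S (β : Fin k → Iio t),
      a ∉ frontier (C k u n i S (fun j => x (β j))))
    (fun t f g a h hP => by
      have h1 : ∀ u : Iio t, g u = f u := fun u => (h u.1 u.2).symm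
      simpa only [h1] using hP)
    (fun t x _ => by
      obtain ⟨y, h1, h2⟩ := hP (e t).1
        (Σ k : ℕ, ((Fin k → ℕ) × Fin k × Finset (Fin k)) × Iio t × (Fin k → Iio t))
        (fun q => frontier (C q.1 q.2.2.1 q.2.1.1 q.2.1.2.1 q.2.1.2.2 (fun j => x (q.2.2.2 j))))
        (by
          rw [mk_sigma]
          refine sum_lt_of_isRegular hr (by simpa using aleph0_lt_continuum) fun k => ?_
          rw [mk_prod, lift_id, lift_id, mk_prod (Iio t), lift_id, lift_id, ← power_def]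
          refine mul_lt_of_lt aleph0_le_continuum (mk_le_aleph0.trans_lt aleph0_lt_continuum)
            (mul_lt_of_lt aleph0_le_continuum (hlt t) ?_)
          rw [mk_fin]
          exact power_nat_le_max.trans_lt (max_lt (hlt t) aleph0_lt_continuum))
        fun q => ⟨isClosed_frontier, interior_frontier (hC _ _ _ _ _ _)⟩
      exact ⟨y, h1, fun k u n i S β => h2 ⟨k, (n, i, S), u, β⟩⟩)
  refine ⟨I, inferInstance, x, fun t => ?_, fun t => ⟨_, (hx t).1⟩, fun τ => ?_, fun k K0 hK0 => ?_⟩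
  · rw [← Iio_insert]
    exact mk_insert_le.trans_lt (add_lt_of_lt aleph0_le_continuum (hlt t)
      (one_lt_aleph0.trans aleph0_lt_continuum))
  · obtain ⟨t, ht⟩ := he (τ, ∅)
    exact ⟨t, by simpa only [ht] using (hx t).1⟩
  obtain ⟨u, hu⟩ := he (Classical.arbitrary T, {n | B k n ⊆ K0ᶜ})
  have h1 : K k u = K0 := by
    refine compl_eq_comm.1 (Subset.antisymm (fun x hx => ?_) ?_)
    · obtain ⟨_, ⟨n, rfl⟩, h1, h2⟩ := (hB k).exists_subset_of_mem_open hx hK0.isOpen_compl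
      exact mem_iUnion₂.2 ⟨n, by rwa [hu], h1⟩
    · exact iUnion₂_subset fun n hn => by rwa [hu] at hn
  refine ⟨u, fun α h2 h3 h4 => ?_⟩
  have h5 : ∀ (S : Finset (Fin k)) (n : Fin k → ℕ), (∀ j, x (α j) ∈ b (n j)) →
      (∀ z, (∀ j, z j ∈ b (n j)) → S.piecewise (x ∘ α) z ∈ K0) →
      ∃ n : Fin k → ℕ, (∀ j, x (α j) ∈ b (n j)) ∧ ∀ z, (∀ j, z j ∈ b (n j)) → z ∈ K0 := by
    intro S
    induction S using Finset.induction_on_max_value α with
    | empty => exact fun n h5 h6 => ⟨n, h5, by simpa using h6⟩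
    | insert a S ha hmax ih =>
      intro n h5 h6
      let β : Fin k → Iio (α a) := fun j => if h : j ∈ S then ⟨α j, (hmax j h).lt_of_ne fun h' =>
        ha (h2 h' ▸ h)⟩ else ⟨u, h3 a⟩
      have h7 : ∀ z, S.piecewise (fun j => x (β j)) z = S.piecewise (x ∘ α) z := fun z =>
        S.piecewise_congr (fun j hj => by simp [β, hj]) fun _ _ => rfl
      have hv := (hx (α a)).2 k ⟨u, h3 a⟩ n a S β
      rw [(hC _ _ _ _ _ _).frontier_eq] at hv
      replace hv := not_not.1 fun h => hv ⟨fun z hz => by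
        rw [h7, h1]
        have := h6 z hz
        rwa [Finset.piecewise_insert] at this, h⟩
      obtain ⟨_, ⟨m, rfl⟩, h8, h9⟩ := hb.exists_subset_of_mem_open hv isOpen_interior
      refine ih (Function.update n a m) (fun j => ?_) fun z hz => ?_
      · rcases eq_or_ne j a with rfl | h
        · simpa using h8
        · simpa [h] using h5 j
      · have h10 := interior_subset (h9 (by simpa using hz a)) (Function.update z a (x (α a))) fun j => by
          rcases eq_or_ne j a with rfl | h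
          · simpa using h5 j
          · simpa [h] using hz j
        rw [h7, h1] at h10
        convert h10 using 1
        funext j
        rcases eq_or_ne j a with rfl | h
        · simp [ha]
        · by_cases hj : j ∈ S <;> simp [h, hj]
  have h6 : ∀ j, ∃ m, x (α j) ∈ b m := fun j => by
    obtain ⟨_, ⟨m, rfl⟩, h6, -⟩ := hb.exists_subset_of_mem_open (mem_univ (x (α j))) isOpen_univ
    exact ⟨m, h6⟩
  choose m hm using h6
  obtain ⟨n, h7, h8⟩ := h5 Finset.univ m hm fun z _ => by simpa using h4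
  exact mem_interior.2 ⟨Set.pi Set.univ fun j => b (n j), fun z hz => h8 z fun j => hz j trivial,
    isOpen_set_pi finite_univ fun j _ => hb.isOpen ⟨_, rfl⟩, fun j _ => h7 j⟩

theorem R_pow (hc : Cov) (hr : Cardinal.IsRegular continuum.{0}) {I : Type} [LinearOrder I] (x : I → V)
    (hI : ∀ t : I, #(Iic t) < 𝔠)
    (hx : ∀ (k : ℕ) (K : Set (Fin k → V)), IsClosed K → ∃ u : I, ∀ α : Fin k → I,
      Function.Injective α → (∀ j, u < α j) → x ∘ α ∈ K → x ∘ α ∈ interior K) (k : ℕ) :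
    ∀ (T : Type) [TopologicalSpace T] [SecondCountableTopology T] (A : Set T), #A < 𝔠 →
      R (A ×ˢ {z : Fin k → V | ∀ i, z i ∈ range x}) := by
  have c0 : ∀ {T T' : Type} (A : Set T) (D : Set T'), #A < 𝔠 → #D < 𝔠 → #(A ×ˢ D) < 𝔠 :=
    fun A D h h' => by
      rw [mk_setProd]
      exact mul_lt_of_lt aleph0_le_continuum h h'
  induction k with
  | zero => exact fun T _ _ A hA => R_small hc (c0 _ _ hA (mk_le_aleph0.trans_lt aleph0_lt_continuum))
  | succ k ih =>
    intro T _ _ A hA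
    obtain ⟨D, h1, h2, h3⟩ := (IsSeparable.of_separableSpace
      {z : Fin (k + 1) → V | ∀ i, z i ∈ range x}).exists_countable_dense_subset
    refine R_conc (R_small hc (c0 A D hA ((le_aleph0_iff_set_countable.2 h2).trans_lt
      aleph0_lt_continuum))) (prod_mono_right h1) fun G hG hD => ?_
    choose u hu using fun a : A => hx (k + 1) (Prod.mk a.1 ⁻¹' G)ᶜ
      (hG.preimage (by fun_prop)).isClosed_compl
    have h4 : #(x '' ⋃ a, Iic (u a)) < 𝔠 :=
      mk_image_le.trans_lt ((card_iUnion_lt_iff_forall_of_isRegular hr hA).2 fun a => hI _)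
    refine ⟨⋃ i : Fin (k + 1), ((fun p : (T × V) × (Fin k → V) => (p.1.1, i.insertNth p.1.2 p.2)) ''
      ((A ×ˢ (x '' ⋃ a, Iic (u a))) ×ˢ {z | ∀ i, z i ∈ range x}) ∪
      ⋃ j : Fin k, (fun p : T × (Fin k → V) => (p.1, i.insertNth (p.2 j) p.2)) ''
        (A ×ˢ {z | ∀ i, z i ∈ range x})),
      R_iUnion fun i => R_union (R_image (ih _ _ (c0 _ _ hA h4)) (by fun_prop))
        (R_iUnion fun j => R_image (ih _ _ hA) (by fun_prop)), iUnion_subset fun i => ?_, ?_⟩
    · refine union_subset ?_ (iUnion_subset fun j => ?_)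
      · rintro _ ⟨p, hp, rfl⟩
        exact ⟨hp.1.1, i.succAboveCases (by simpa using image_subset_range _ _ hp.1.2)
          fun l => by simpa using hp.2 l⟩
      · rintro _ ⟨p, hp, rfl⟩
        exact ⟨hp.1, i.succAboveCases (by simpa using hp.2 j) fun l => by simpa using hp.2 l⟩
    · rintro ⟨a, z⟩ ⟨⟨ha, hz⟩, h5⟩
      choose α hα using hz
      obtain rfl : z = x ∘ α := (funext hα).symm
      by_contra h6
      simp only [mem_iUnion, mem_union, not_exists, not_or] at h6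
      have h7 := hu ⟨a, ha⟩ α (fun i j hij => by_contra fun h => by
        obtain ⟨l, rfl⟩ := Fin.exists_succAbove_eq (Ne.symm h)
        refine (h6 i).2 l ⟨(a, i.removeNth (x ∘ α)), ⟨ha, fun _ => ⟨_, rfl⟩⟩, Prod.ext rfl ?_⟩
        have : i.removeNth (x ∘ α) l = (x ∘ α) i := congrArg x hij.symm
        simp only [this, Fin.insertNth_self_removeNth]) (fun i => not_le.1 fun h =>
          (h6 i).1 ⟨((a, x (α i)), i.removeNth (x ∘ α)), ⟨⟨ha, α i, mem_iUnion.2 ⟨⟨a, ha⟩, h⟩, rfl⟩,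
            fun _ => ⟨_, rfl⟩⟩, Prod.ext rfl (Fin.insertNth_self_removeNth i (x ∘ α))⟩) h5
      obtain ⟨d, h8, h9⟩ := mem_closure_iff.1 (h3 (a := x ∘ α) fun i => ⟨_, rfl⟩) _ isOpen_interior h7
      exact interior_subset h8 (hD ⟨ha, h9⟩)

end Pool.Agent.H.MP_10f401_gt
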