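import Mathlib
import Pool.Agent.H.MP_10f401_gt.A

set_option autoImplicit false

namespace Pool.Agent.H.MP_10f401_gt

open Set Filter Topology Cardinal TopologicalSpace Pool.Agent.H.MP_5382b1_gt

theorem mea (b : ℕ → ℕ) (hb : Function.Injective b) (c : V) :
    IsMeagre {z : V | ∀ᶠ i in atTop, z (b i) = c i} := by
  simp only [eventually_atTop, ofPred_exists]
  refine isMeagre_iUnion fun N => IsNowhereDense.isMeagre ((IsClosed.isNowhereDense_iff ?_).2 ?_)
  · simp only [ofPred_forall]
    exact isClosed_iInter fun i => isClosed_iInter fun _ =>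
      isClosed_eq (continuous_apply _) continuous_const
  · refine eq_empty_iff_forall_notMem.2 fun y hy => ?_
    have h2 : Tendsto (fun n : ℕ => Function.update y (b n) (y (b n) + 1)) atTop (𝓝 y) := by
      refine tendsto_pi_nhds.2 fun m => tendsto_const_nhds.congr' ?_
      filter_upwards [hb.nat_tendsto_atTop.eventually_gt_atTop m] with n hn
      rw [Function.update_of_ne hn.ne]
    obtain ⟨n, h3, h4⟩ := ((h2.eventually (mem_interior_iff_mem_nhds.1 hy)).and
      (eventually_ge_atTop N)).exists
    have h5 := h3 n h4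
    rw [Function.update_self, interior_subset hy n h4] at h5
    simp at h5

def bb (f : ℕ → ℕ) (i : ℕ) : ℕ := 2 * (i + ∑ j ∈ Finset.range (i + 1), f j)

theorem bb_mono (f : ℕ → ℕ) : StrictMono (bb f) := strictMono_nat_of_lt_succ fun i => by
  simp only [bb, Finset.sum_range_succ _ (i + 1)]
  omega

theorem le_bb (f : ℕ → ℕ) (i : ℕ) : f i ≤ bb f i := by
  simp only [bb, Finset.sum_range_succ]
  omega

theorem main (hc : Cov) (hr : Cardinal.IsRegular continuum.{0}) (X : Set V) (hX : 𝔠 ≤ #X)
    (hM : ∀ M, IsMeagre M → #(X ∩ M : Set V) < 𝔠) : ∃ Y : Set V, Y.Nonempty ∧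
      (∀ k, R {z : Fin k → V | ∀ i, z i ∈ Y}) ∧ (∀ x ∈ X, ∀ y ∈ Y, {n | x n = y n}.Infinite) ∧
      ∀ f, ∃ x ∈ X, ∃ y ∈ Y, ∀ n, x n = y n → n ∈ range (bb f) := by
  classical
  obtain ⟨I, _, x, h1, h2, h3, h4⟩ := luzin2 hr (ℕ → ℕ) (by simp)
    (fun f => {y | (∀ x ∈ X, {n | x n = y n}.Infinite) ∧ ∃ x ∈ X, ∀ n, x n = y n → n ∈ range (bb f)})
    (by
      intro f J N hJ hN
      have hb := (bb_mono f).injective
      let g : V → V := fun z => Function.extend (bb f) z 1
      have g1 : ∀ z n, n ∉ range (bb f) → g z n = 1 := fun z n hn => Function.extend_apply' _ _ _ hn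
      have g2 : ∀ z i, g z (bb f i) = z i := fun z i => hb.extend_apply _ _ _
      have g3 : Continuous g := continuous_pi fun n => by
        by_cases h : n ∈ range (bb f)
        · obtain ⟨i, rfl⟩ := h
          simp only [g2]
          exact continuous_apply i
        · simp only [g1 _ n h]
          exact continuous_const
      have hN' : ∀ j, IsMeagre (N j) := fun j =>
        IsNowhereDense.isMeagre ((hN j).1.isNowhereDense_iff.2 (hN j).2)
      obtain ⟨D, hD, hD'⟩ := exists_countable_dense V
      have := hD.to_subtype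
      obtain ⟨x, hx, k1⟩ : ∃ x ∈ X, ∀ q : J × D, x + g q.2 ∉ N q.1 := by
        by_contra h
        push Not at h
        refine hX.not_gt ((mk_le_mk_of_subset (t := ⋃ q : J × D, X ∩ (· + g q.2) ⁻¹' N q.1)
          fun x hx => ?_).trans_lt ((card_iUnion_lt_iff_forall_of_isRegular hr ?_).2 fun q =>
            hM _ ((hN' _).preimage_of_isOpenMap (by fun_prop) (isOpenMap_add_right _))))
        · obtain ⟨q, hq⟩ := h x hx
          exact mem_iUnion.2 ⟨q, hx, hq⟩
        · rw [mk_prod, lift_id, lift_id]
          exact mul_lt_of_lt aleph0_le_continuum hJ (mk_le_aleph0.trans_lt aleph0_lt_continuum)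
      obtain ⟨z, hz⟩ := hc (J ⊕ (X ∩ {w : V | ∀ᶠ i in atTop, w (2 * i + 1) = x (2 * i + 1)} : Set V))
        (Sum.elim (fun j => {z | x + g z ∈ N j})
          fun w => {z | ∀ᶠ i in atTop, z (id i) = (fun i => w.1 (bb f i) + x (bb f i) + 1) i}) (by
          rw [mk_sum, lift_id, lift_id]
          exact add_lt_of_lt aleph0_le_continuum hJ
            (hM _ (mea _ (fun a b h => by simpa using h) fun i => x (2 * i + 1)))) (by
          rintro (j | w)
          · refine IsNowhereDense.isMeagre ((IsClosed.isNowhereDense_iff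
              ((hN j).1.preimage (f := fun z => x + g z) (by fun_prop))).2 ?_)
            rw [interior_eq_empty_iff_dense_compl]
            exact hD'.mono fun d hd => k1 (j, ⟨d, hd⟩)
          · exact mea _ Function.injective_id _)
      refine ⟨x + g z, ⟨fun w hw => ?_, x, hx, fun n hn => by_contra fun h => ?_⟩,
        fun j => hz (Sum.inl j)⟩
      · have z1 : ∀ a b : ZMod 2, ¬ a = b → a = b + 1 := by decide
        have z2 : ∀ a b c : ZMod 2, ¬ c = a + b + 1 → a = b + c := by decide
        rw [← Nat.frequently_atTop_iff_infinite]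
        by_cases h : ∀ᶠ i in atTop, w (2 * i + 1) = x (2 * i + 1)
        · refine hb.nat_tendsto_atTop.frequently ((not_eventually.1 (hz (Sum.inr ⟨w, hw, h⟩))).mono
            fun i hi => ?_)
          rw [Pi.add_apply, g2]
          exact z2 _ _ _ hi
        · refine (show Function.Injective fun i => 2 * i + 1 from fun a b h => by
            simpa using h).nat_tendsto_atTop.frequently ((not_eventually.1 h).mono fun i hi => ?_)
          rw [Pi.add_apply, g1 _ _ fun ⟨j, hj⟩ => by simp only [bb] at hj; omega]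
          exact z1 _ _ hi
      · rw [Pi.add_apply, g1 _ _ h] at hn
        simp at hn)
  refine ⟨range x, (h3 0).elim fun t _ => ⟨_, t, rfl⟩, fun k => ?_, ?_, fun f => ?_⟩
  · have := R_image (R_pow hc hr x h1 h4 k Unit Set.univ
      (mk_le_aleph0.trans_lt aleph0_lt_continuum)) continuous_snd
    rwa [snd_image_prod univ_nonempty] at this
  · rintro w hw _ ⟨t, rfl⟩
    obtain ⟨f, hf⟩ := h2 t
    exact hf.1 w hw
  · obtain ⟨t, -, w, hw, h⟩ := h3 f
    exact ⟨w, hw, _, ⟨t, rfl⟩, h⟩

end Pool.Agent.H.MP_10f401_gt
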